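import Mathlib
import Pool.Agent.H307.Weak7

set_option autoImplicit false

/-!
# MP_901471_an, Q1 (Sirakov 2007): uniqueness of positive solutions of the cubic system

For `N = 2, 3`, `lam, mu1, mu2 > 0` and `0 < be < min mu1 mu2`, every solution `(u, v)` in
`H^1(ℝ^N) × H^1(ℝ^N)`, `u, v ≥ 0`, `u, v ≠ 0`, of

  `-Δu + lam u = mu1 u^3 + be u v^2`, `-Δv + lam v = mu2 v^3 + be v u^2` on `ℝ^N`

(in the sense of distributions) is a translate of `(√k ω, √l ω)` where
`k = (mu2 - be)/(mu1 mu2 - be^2)`, `l = (mu1 - be)/(mu1 mu2 - be^2)` and `ω` is the unique positive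
radial solution in `H^1` of `-Δω + lam ω = ω^3` (the uniqueness of `ω` is part of what is proved).
The same statement is proved for classical (`C^2`, positive, tending to `0`) solutions.
-/

open Filter Topology Laplacian MeasureTheory
open scoped ContDiff

namespace Pool.Agent.Results.MP_901471_an.Uniqueness

/-- `u ∈ H^1(ℝ^N)`, with weak gradient `g`, is a weak solution (in the sense of distributions) of
`-Δu + lam u = f` on `ℝ^N`. -/
structure IsWeakSolution {N : ℕ} (lam : ℝ) (u : EuclideanSpace ℝ (Fin N) → ℝ)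
    (g : EuclideanSpace ℝ (Fin N) → EuclideanSpace ℝ (Fin N))
    (f : EuclideanSpace ℝ (Fin N) → ℝ) : Prop where
  /-- `u ∈ L^2` -/
  memLp : MemLp u 2
  /-- `g ∈ L^2` -/
  memLp_grad : MemLp g 2
  /-- `g` is the gradient of `u` in the sense of distributions -/
  grad : ∀ φ : EuclideanSpace ℝ (Fin N) → ℝ, ContDiff ℝ ∞ φ → HasCompactSupport φ →
    ∀ e : EuclideanSpace ℝ (Fin N), ∫ x, u x * fderiv ℝ φ x e = -∫ x, inner ℝ (g x) e * φ x
  /-- the equation, tested with `φ ∈ C_c^∞` -/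
  eq : ∀ φ : EuclideanSpace ℝ (Fin N) → ℝ, ContDiff ℝ ∞ φ → HasCompactSupport φ →
    (∫ x, inner ℝ (g x) (gradient φ x)) + lam * (∫ x, u x * φ x) = ∫ x, f x * φ x

/-- `(u, v)` is a nonnegative weak solution in `H^1 × H^1` of the system `(S)`, with both
components nontrivial. No decay and no strict positivity is assumed. -/
structure IsSystemSolution {N : ℕ} (lam mu1 mu2 be : ℝ)
    (u v : EuclideanSpace ℝ (Fin N) → ℝ) : Prop where
  nonneg_u : ∀ᵐ x, 0 ≤ u x
  nonneg_v : ∀ᵐ x, 0 ≤ v x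
  ne_zero_u : ¬ u =ᵐ[volume] 0
  ne_zero_v : ¬ v =ᵐ[volume] 0
  eq_u : ∃ g, IsWeakSolution lam u g (fun x => mu1 * u x ^ 3 + be * u x * v x ^ 2)
  eq_v : ∃ g, IsWeakSolution lam v g (fun x => mu2 * v x ^ 3 + be * v x * u x ^ 2)

/-- `w ∈ H^1(ℝ^N)` is a positive radially symmetric weak solution of `-Δw + lam w = w^3`. -/
structure IsGroundState {N : ℕ} (lam : ℝ) (w : EuclideanSpace ℝ (Fin N) → ℝ) : Prop where
  pos : ∀ᵐ x, 0 < w x
  radial : ∀ R : EuclideanSpace ℝ (Fin N) ≃ₗᵢ[ℝ] EuclideanSpace ℝ (Fin N),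
    (fun x => w (R x)) =ᵐ[volume] w
  eq : ∃ g, IsWeakSolution lam w g (fun x => w x ^ 3)

/-- `(u, v)` is a positive classical solution of the system `(S)` on `ℝ^N` tending to zero at
infinity. -/
structure IsClassicalSystemSolution {N : ℕ} (lam mu1 mu2 be : ℝ)
    (u v : EuclideanSpace ℝ (Fin N) → ℝ) : Prop where
  contDiff_u : ContDiff ℝ 2 u
  contDiff_v : ContDiff ℝ 2 v
  pos_u : ∀ x, 0 < u x
  pos_v : ∀ x, 0 < v x
  tendsto_u : Tendsto u (cocompact (EuclideanSpace ℝ (Fin N))) (𝓝 0)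
  tendsto_v : Tendsto v (cocompact (EuclideanSpace ℝ (Fin N))) (𝓝 0)
  eq_u : ∀ x, -(Δ u x) + lam * u x = mu1 * u x ^ 3 + be * u x * v x ^ 2
  eq_v : ∀ x, -(Δ v x) + lam * v x = mu2 * v x ^ 3 + be * v x * u x ^ 2

/-- `w` is a positive radially symmetric classical solution of `-Δw + lam w = w^3` tending to
zero at infinity. -/
structure IsClassicalGroundState {N : ℕ} (lam : ℝ) (w : EuclideanSpace ℝ (Fin N) → ℝ) :
    Prop where
  contDiff : ContDiff ℝ 2 w
  pos : ∀ x, 0 < w x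
  tendsto : Tendsto w (cocompact (EuclideanSpace ℝ (Fin N))) (𝓝 0)
  radial : ∀ x y, ‖x‖ = ‖y‖ → w x = w y
  eq : ∀ x, -(Δ w x) + lam * w x = w x ^ 3

theorem IsWeakSolution.toWeakSol {N : ℕ} {lam : ℝ} {u : EuclideanSpace ℝ (Fin N) → ℝ}
    {g : EuclideanSpace ℝ (Fin N) → EuclideanSpace ℝ (Fin N)}
    {f : EuclideanSpace ℝ (Fin N) → ℝ} (h : IsWeakSolution lam u g f) :
    Pool.Agent.H307.WeakSol lam u g f := by
  refine ⟨h.memLp, h.memLp_grad, h.grad, fun φ hφ hs => ?_⟩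
  rw [← h.eq φ hφ hs]
  congr 2
  funext x
  rw [real_inner_comm, inner_gradient_left]

theorem IsWeakSolution.ofWeakSol {N : ℕ} {lam : ℝ} {u : EuclideanSpace ℝ (Fin N) → ℝ}
    {g : EuclideanSpace ℝ (Fin N) → EuclideanSpace ℝ (Fin N)}
    {f : EuclideanSpace ℝ (Fin N) → ℝ} (h : Pool.Agent.H307.WeakSol lam u g f) :
    IsWeakSolution lam u g f := by
  refine ⟨h.memLp_u, h.memLp_g, h.grad, fun φ hφ hs => ?_⟩
  rw [← h.eq φ hφ hs]
  congr 2
  funext x
  rw [real_inner_comm, inner_gradient_left]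

theorem IsGroundState.toWeakGround {N : ℕ} {lam : ℝ} {w : EuclideanSpace ℝ (Fin N) → ℝ}
    (h : IsGroundState lam w) : Pool.Agent.H307.WeakGround lam w :=
  ⟨h.eq.imp fun _ hg => hg.toWeakSol, h.pos, h.radial⟩

theorem IsGroundState.ofWeakGround {N : ℕ} {lam : ℝ} {w : EuclideanSpace ℝ (Fin N) → ℝ}
    (h : Pool.Agent.H307.WeakGround lam w) : IsGroundState lam w :=
  ⟨h.pos, h.rad, h.sol.imp fun _ hg => IsWeakSolution.ofWeakSol hg⟩

theorem result {N : ℕ} (hN : N = 2 ∨ N = 3) {lam mu1 mu2 be : ℝ} (hlam : 0 < lam)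
    (hmu1 : 0 < mu1) (hmu2 : 0 < mu2) (hbe : 0 < be) (hbe' : be < min mu1 mu2) :
    -- the positive radial solution of the scalar equation in `H^1` is unique
    (∀ w w' : EuclideanSpace ℝ (Fin N) → ℝ,
      IsGroundState lam w → IsGroundState lam w' → w =ᵐ[volume] w') ∧
    -- every nonnegative solution in `H^1 × H^1` with both components nontrivial is a translate
    -- of `(√k ω, √l ω)`; moreover `ω` is a classical solution
    (∀ u v : EuclideanSpace ℝ (Fin N) → ℝ, IsSystemSolution lam mu1 mu2 be u v →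
      ∃ w : EuclideanSpace ℝ (Fin N) → ℝ, IsGroundState lam w ∧ IsClassicalGroundState lam w ∧
        ∃ x0 : EuclideanSpace ℝ (Fin N),
          u =ᵐ[volume] (fun x => Real.sqrt ((mu2 - be) / (mu1 * mu2 - be ^ 2)) * w (x - x0)) ∧
          v =ᵐ[volume] (fun x => Real.sqrt ((mu1 - be) / (mu1 * mu2 - be ^ 2)) * w (x - x0))) ∧
    -- the same for any given positive radial solution `w` in `H^1` of the scalar equation
    (∀ w : EuclideanSpace ℝ (Fin N) → ℝ, IsGroundState lam w →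
      ∀ u v : EuclideanSpace ℝ (Fin N) → ℝ, IsSystemSolution lam mu1 mu2 be u v →
        ∃ x0 : EuclideanSpace ℝ (Fin N),
          u =ᵐ[volume] (fun x => Real.sqrt ((mu2 - be) / (mu1 * mu2 - be ^ 2)) * w (x - x0)) ∧
          v =ᵐ[volume] (fun x => Real.sqrt ((mu1 - be) / (mu1 * mu2 - be ^ 2)) * w (x - x0))) ∧
    -- classical solutions tending to zero (membership in `H^1` is not assumed)
    (∀ w w' : EuclideanSpace ℝ (Fin N) → ℝ,
      IsClassicalGroundState lam w → IsClassicalGroundState lam w' → w = w') ∧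
    ∀ u v : EuclideanSpace ℝ (Fin N) → ℝ, IsClassicalSystemSolution lam mu1 mu2 be u v →
      ∃ w : EuclideanSpace ℝ (Fin N) → ℝ, IsClassicalGroundState lam w ∧
        ∃ x0 : EuclideanSpace ℝ (Fin N), ∀ x,
          u x = Real.sqrt ((mu2 - be) / (mu1 * mu2 - be ^ 2)) * w (x - x0) ∧
          v x = Real.sqrt ((mu1 - be) / (mu1 * mu2 - be ^ 2)) * w (x - x0) := by
  have _ := hmu1
  have _ := hmu2
  have h1 : be < mu1 := lt_of_lt_of_le hbe' (min_le_left _ _)
  have h2 : be < mu2 := lt_of_lt_of_le hbe' (min_le_right _ _)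
  have huniq : ∀ w w' : EuclideanSpace ℝ (Fin N) → ℝ,
      IsGroundState lam w → IsGroundState lam w' → w =ᵐ[volume] w' := fun w w' h h' =>
    Pool.Agent.H307.weak_ground_unique hN hlam h.toWeakGround h'.toWeakGround
  have hmain : ∀ u v : EuclideanSpace ℝ (Fin N) → ℝ, IsSystemSolution lam mu1 mu2 be u v →
      ∃ w : EuclideanSpace ℝ (Fin N) → ℝ, IsGroundState lam w ∧ IsClassicalGroundState lam w ∧
        ∃ x0 : EuclideanSpace ℝ (Fin N),
          u =ᵐ[volume] (fun x => Real.sqrt ((mu2 - be) / (mu1 * mu2 - be ^ 2)) * w (x - x0)) ∧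
          v =ᵐ[volume]
            (fun x => Real.sqrt ((mu1 - be) / (mu1 * mu2 - be ^ 2)) * w (x - x0)) := by
    intro u v h
    obtain ⟨gu, hu⟩ := h.eq_u
    obtain ⟨gv, hv⟩ := h.eq_v
    obtain ⟨w, hw1, hw2, c, hc⟩ := Pool.Agent.H307.weak_main hN hlam hbe h1 h2 hu.toWeakSol
      hv.toWeakSol h.nonneg_u h.nonneg_v h.ne_zero_u h.ne_zero_v
    exact ⟨w, IsGroundState.ofWeakGround hw1,
      ⟨hw2.cw, hw2.pw, hw2.lw, hw2.rw', fun x => by linarith [hw2.ew x]⟩, c, hc⟩
  refine ⟨huniq, hmain, ?_, ?_, ?_⟩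
  · intro w hw u v h
    obtain ⟨w', hw', -, c, hu, hv⟩ := hmain u v h
    have h3 : (fun x => w' (x - c)) =ᵐ[volume] fun x => w (x - c) :=
      (measurePreserving_sub_right volume c).quasiMeasurePreserving.ae_eq_comp (huniq w' w hw' hw)
    refine ⟨c, ?_, ?_⟩
    · filter_upwards [hu, h3] with x hx hx3
      rw [hx, hx3]
    · filter_upwards [hv, h3] with x hx hx3
      rw [hx, hx3]
  · intro w w' h h'
    exact Pool.Agent.H307.ground_unique hN hlam
      ⟨h.contDiff, h.pos, h.tendsto, h.radial, fun x => by linarith [h.eq x]⟩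
      ⟨h'.contDiff, h'.pos, h'.tendsto, h'.radial, fun x => by linarith [h'.eq x]⟩
  · intro u v h
    obtain ⟨w, hw, c, hc⟩ := Pool.Agent.H307.classical_main hN hlam hbe h1 h2
      (u := u) (v := v)
      ⟨h.contDiff_u, h.contDiff_v, h.pos_u, h.pos_v, h.tendsto_u, h.tendsto_v,
        fun x => by linarith [h.eq_u x], fun x => by linarith [h.eq_v x]⟩
    exact ⟨w, ⟨hw.cw, hw.pw, hw.lw, hw.rw', fun x => by linarith [hw.ew x]⟩, c, hc⟩

end Pool.Agent.Results.MP_901471_an.Uniqueness
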